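import Pool.Agent.TH181.QV.Gen
import Pool.Agent.TH183.QT.Dim

/-! Curves with large quasimonomial valuations, by counting conditions. -/

namespace Pool.Agent.TH181.QV

open Finset Pool.Agent.TH183.QT

/-- more forms than conditions -/
theorem exists_form {n : ℕ} (a : Fin n → ℕ → ℂ) (t : Fin n → ℝ) (s d : ℕ)
    (h : ∑ i, ∑ l : Fin s, ⌈t i * ((s : ℝ) - (l : ℕ))⌉₊ < (d + 2).choose 2) :
    ∃ F : MvPolynomial (Fin 3) ℂ, F.IsHomogeneous d ∧ F ≠ 0 ∧
      (∀ i, ∀ j l : ℕ, (j : ℝ) + t i * l < t i * s → 0 ≤ t i →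
         PowerSeries.coeff j ((expandAt (a i) F).coeff l) = 0) := by
  classical
  let f : (exps d → ℂ) →ₗ[ℂ]
      ((Σ i : Fin n, Σ l : Fin s, Fin ⌈t i * ((s : ℝ) - (l : ℕ))⌉₊) → ℂ) :=
    LinearMap.pi fun p => ∑ m : exps d, (entA (a p.1) m.1 p.2.2 p.2.1) • LinearMap.proj m
  have hcard : Module.finrank ℂ
      ((Σ i : Fin n, Σ l : Fin s, Fin ⌈t i * ((s : ℝ) - (l : ℕ))⌉₊) → ℂ) <
      Module.finrank ℂ (exps d → ℂ) := by
    rw [Module.finrank_fintype_fun_eq_card, Module.finrank_fintype_fun_eq_card,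
      Fintype.card_coe, card_exps, Fintype.card_sigma]
    refine lt_of_eq_of_lt (Finset.sum_congr rfl fun i _ => ?_) h
    rw [Fintype.card_sigma]
    exact Finset.sum_congr rfl fun l _ => Fintype.card_fin _
  obtain ⟨v, hv, hv0⟩ := Submodule.exists_mem_ne_zero_of_ne_bot
    (LinearMap.ker_ne_bot_of_finrank_lt (f := f) hcard)
  rw [LinearMap.mem_ker] at hv
  obtain ⟨F, hFdef⟩ : ∃ F : MvPolynomial (Fin 3) ℂ,
    F = ∑ m : exps d, MvPolynomial.monomial m.1 (v m) := ⟨_, rfl⟩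
  have hFd : F.IsHomogeneous d := by
    rw [hFdef]
    apply MvPolynomial.IsHomogeneous.sum
    intro m _
    exact MvPolynomial.isHomogeneous_monomial _ (mem_exps.1 m.2)
  have hFc : ∀ m : exps d, MvPolynomial.coeff m.1 F = v m := by
    intro m
    rw [hFdef, MvPolynomial.coeff_sum, Finset.sum_eq_single m]
    · rw [MvPolynomial.coeff_monomial, if_pos rfl]
    · intro m' _ hne
      rw [MvPolynomial.coeff_monomial, if_neg]
      exact fun h => hne (Subtype.ext h)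
    · intro h; exact absurd (Finset.mem_univ m) h
  refine ⟨F, hFd, ?_, ?_⟩
  · intro h0
    apply hv0
    funext m
    rw [← hFc m, h0]
    simp
  · intro i j l hjl hti
    have hl : l < s := by
      by_contra hcon
      rw [not_lt] at hcon
      have h1 : (s : ℝ) ≤ l := by exact_mod_cast hcon
      have h2 : t i * (s : ℝ) ≤ t i * l := mul_le_mul_of_nonneg_left h1 hti
      have h3 : (0 : ℝ) ≤ j := Nat.cast_nonneg j
      linarith
    have hj : j < ⌈t i * ((s : ℝ) - l)⌉₊ := by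
      rw [Nat.lt_ceil]
      linarith
    rw [coeff_expandAt_form _ hFd]
    have h4 := congrFun hv ⟨i, ⟨l, hl⟩, ⟨j, hj⟩⟩
    simp only [f, LinearMap.pi_apply, LinearMap.sum_apply, LinearMap.smul_apply,
      LinearMap.proj_apply, smul_eq_mul, Pi.zero_apply] at h4
    rw [← h4]
    exact Finset.sum_congr rfl fun m _ => by rw [hFc, mul_comm]

theorem count_le {t : ℝ} (ht : 0 ≤ t) (s : ℕ) :
    ((∑ l : Fin s, ⌈t * ((s : ℝ) - (l : ℕ))⌉₊ : ℕ) : ℝ) ≤ t * (s * (s + 1) / 2) + s := by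
  rw [Fin.sum_univ_eq_sum_range (fun l => ⌈t * ((s : ℝ) - l)⌉₊)]
  push_cast
  have h1 : ∀ l ∈ range s, ((⌈t * ((s : ℝ) - l)⌉₊ : ℕ) : ℝ) ≤ t * ((s : ℝ) - l) + 1 := by
    intro l hl
    rw [mem_range] at hl
    have h2 : (l : ℝ) ≤ s := by exact_mod_cast hl.le
    exact (Nat.ceil_lt_add_one (mul_nonneg ht (by linarith))).le
  refine (sum_le_sum h1).trans (le_of_eq ?_)
  rw [sum_add_distrib, ← mul_sum, sum_sub_distrib]
  have h3 : ∀ s : ℕ, ∑ l ∈ range s, (l : ℝ) = s * (s - 1) / 2 := by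
    intro s
    induction s with
    | zero => simp
    | succ k ih => rw [sum_range_succ, ih]; push_cast; ring
  rw [h3]
  simp only [sum_const, card_range, nsmul_eq_mul, mul_one]
  ring

/-- **The constant cannot be improved**, whatever the germs -/
theorem sharp {n : ℕ} (a : Fin n → ℕ → ℂ) {t : Fin n → ℝ} (ht : ∀ i, 1 ≤ t i)
    (hT : 9 ≤ ∑ i, t i) {ε : ℝ} (hε : 0 < ε) :
    ∃ (d : ℕ) (F : MvPolynomial (Fin 3) ℂ) (w : Fin n → ℝ), 1 ≤ d ∧ F.IsHomogeneous d ∧ F ≠ 0 ∧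
      (∀ i, ∀ j l : ℕ, (j : ℝ) + t i * l < w i →
         PowerSeries.coeff j ((expandAt (a i) F).coeff l) = 0) ∧
      (d : ℝ) * (√(∑ i, t i) - ε) ≤ ∑ i, w i := by
  obtain ⟨T, hTdef⟩ : ∃ T, T = ∑ i, t i := ⟨_, rfl⟩
  rw [← hTdef] at hT ⊢
  obtain ⟨r, hr⟩ : ∃ r, r = √T := ⟨_, rfl⟩
  have hr2 : r ^ 2 = T := by rw [hr]; exact Real.sq_sqrt (by linarith)
  have hr3 : 3 ≤ r := by rw [hr]; exact Real.le_sqrt_of_sq_le (by linarith)
  rw [← hr]
  obtain ⟨K, hK⟩ : ∃ K : ℝ, K = T + 2 * n := ⟨_, rfl⟩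
  have hn0 : (0 : ℝ) ≤ n := Nat.cast_nonneg n
  have hK0 : 9 ≤ K := by rw [hK]; linarith
  obtain ⟨s, hs⟩ := exists_nat_ge ((K + 1) / ε + 1)
  have hs1 : (K + 1) / ε ≤ s := by linarith
  have hs0 : (1 : ℝ) ≤ s := by
    have : 0 ≤ (K + 1) / ε := by positivity
    linarith
  have hs2 : K + 1 ≤ ε * s := by
    rw [div_le_iff₀ hε] at hs1
    linarith
  obtain ⟨d, hd⟩ : ∃ d : ℕ, d = ⌈r * s + K⌉₊ := ⟨_, rfl⟩
  have hrs : 0 ≤ r * s := by positivity
  have hd1 : r * s + K ≤ d := by rw [hd]; exact Nat.le_ceil _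
  have hd2 : (d : ℝ) ≤ r * s + K + 1 := by
    rw [hd]; exact (Nat.ceil_lt_add_one (by linarith)).le
  have hcount : ∑ i, ∑ l : Fin s, ⌈t i * ((s : ℝ) - (l : ℕ))⌉₊ < (d + 2).choose 2 := by
    have h1 : ((∑ i, ∑ l : Fin s, ⌈t i * ((s : ℝ) - (l : ℕ))⌉₊ : ℕ) : ℝ) ≤
        T * (s * (s + 1) / 2) + n * s := by
      rw [Nat.cast_sum]
      calc ∑ i, ((∑ l : Fin s, ⌈t i * ((s : ℝ) - (l : ℕ))⌉₊ : ℕ) : ℝ)
          ≤ ∑ i, (t i * (s * (s + 1) / 2) + s) :=
            sum_le_sum fun i _ => count_le (zero_le_one.trans (ht i)) s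
        _ = T * (s * (s + 1) / 2) + n * s := by
            rw [sum_add_distrib, ← sum_mul, ← hTdef]; simp
    have h2 : ((d + 2).choose 2 : ℝ) = ((d : ℝ) + 2) * (d + 1) / 2 := by
      rw [Nat.cast_choose_two]; push_cast; ring
    have h3 : T * (s * (s + 1) / 2) + n * s < ((d : ℝ) + 2) * (d + 1) / 2 := by
      have h4 : (r * s + K) ^ 2 ≤ (d : ℝ) ^ 2 := pow_le_pow_left₀ (by linarith) hd1 2
      have h5 : (r * s + K) ^ 2 = T * s ^ 2 + 2 * K * (r * s) + K ^ 2 := by rw [← hr2]; ring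
      have h6 : 2 * K * (3 * s) ≤ 2 * K * (r * s) :=
        mul_le_mul_of_nonneg_left (mul_le_mul_of_nonneg_right hr3 (by linarith)) (by linarith)
      have h7 : T * s + 2 * n * s = K * s := by rw [hK]; ring
      have h8 : 0 ≤ K * s := by positivity
      have h9 : (0 : ℝ) ≤ d := Nat.cast_nonneg d
      nlinarith
    have h4 : ((∑ i, ∑ l : Fin s, ⌈t i * ((s : ℝ) - (l : ℕ))⌉₊ : ℕ) : ℝ) <
        (((d + 2).choose 2 : ℕ) : ℝ) := by
      rw [h2]; linarith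
    exact_mod_cast h4
  obtain ⟨F, hF, hF0, hv⟩ := exists_form a t s d hcount
  refine ⟨d, F, fun i => t i * s, ?_, hF, hF0, ?_, ?_⟩
  · have : (1 : ℝ) ≤ d := by linarith
    exact_mod_cast this
  · intro i j l hjl
    exact hv i j l hjl (zero_le_one.trans (ht i))
  · rw [← sum_mul, ← hTdef, ← hr2]
    rcases le_or_gt (r - ε) 0 with h | h
    · have h9 : (0 : ℝ) ≤ d := Nat.cast_nonneg d
      have h10 : (d : ℝ) * (r - ε) ≤ 0 := mul_nonpos_of_nonneg_of_nonpos h9 h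
      have h11 : 0 ≤ r ^ 2 * s := by positivity
      linarith
    · have h10 : (d : ℝ) * (r - ε) ≤ (r * s + K + 1) * (r - ε) :=
        mul_le_mul_of_nonneg_right hd2 h.le
      have h11 : (K + 1) * r ≤ ε * s * r := mul_le_mul_of_nonneg_right hs2 (by linarith)
      have h12 : 0 ≤ (K + 1) * ε := by positivity
      nlinarith

end Pool.Agent.TH181.QV
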