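import Pool.Agent.TH308.QM.Fin
import Pool.Agent.TH183.QN.Generic

/-! Several very general quasimonomial valuations: from special germs to generic germs. -/

namespace Pool.Agent.TH181.QV

open Finset Pool.Agent.TH176.Nag Pool.Agent.TH183.QT
open Pool.Agent.TH183.QN (EmpW TT)

/-- The expansion of a form at the point `(c 0 : c 1 : 1)` along the germ
`y = c 1 + c 2 * x + c 3 * x ^ 2 + ...` (where `x` is the first affine coordinate minus `c 0`):
the first coordinate is replaced by `c 0 + x`, the second one by `c 1 + c 2 * x + ... + Y`,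
the third one by `1`; the result is a polynomial in `Y` over the power series in `x`. -/
noncomputable def expandAt {R : Type*} [CommRing R] (c : ℕ → R) (f : MvPolynomial (Fin 3) R) :
    Polynomial (PowerSeries R) :=
  MvPolynomial.aeval
    (![Polynomial.C (PowerSeries.C (c 0) + PowerSeries.X),
       Polynomial.C (PowerSeries.mk fun k => c (k + 1)) + Polynomial.X,
       1] : Fin 3 → Polynomial (PowerSeries R)) f

/-- The coefficient of `x ^ i * Y ^ j` in the expansion of a monomial. -/
noncomputable def entA {R : Type*} [CommRing R] (c : ℕ → R) (m : Fin 3 →₀ ℕ) (i j : ℕ) : R :=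
  PowerSeries.coeff i ((expandAt c (MvPolynomial.monomial m (1 : R))).coeff j)

theorem expandAt_monomial {R : Type*} [CommRing R] (c : ℕ → R) (m : Fin 3 →₀ ℕ) :
    expandAt c (MvPolynomial.monomial m (1 : R)) =
      (Polynomial.C (PowerSeries.C (c 0) + PowerSeries.X)) ^ (m 0) *
        (Polynomial.C (PowerSeries.mk fun k => c (k + 1)) + Polynomial.X) ^ (m 1) := by
  unfold expandAt
  rw [MvPolynomial.aeval_monomial, map_one, one_mul, Finsupp.prod_fintype _ _ (by simp),
    Fin.prod_univ_three]
  simp

theorem coeff_expandAt {R : Type*} [CommRing R] (c : ℕ → R) (f : MvPolynomial (Fin 3) R)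
    (i j : ℕ) :
    PowerSeries.coeff i ((expandAt c f).coeff j) =
      ∑ m ∈ f.support, MvPolynomial.coeff m f * entA c m i j := by
  have h : f = ∑ m ∈ f.support, MvPolynomial.coeff m f • MvPolynomial.monomial m (1 : R) := by
    conv_lhs => rw [f.as_sum]
    refine Finset.sum_congr rfl fun m _ => ?_
    rw [MvPolynomial.smul_monomial, smul_eq_mul, mul_one]
  conv_lhs => rw [h]
  unfold expandAt entA
  rw [map_sum, Polynomial.finsetSum_coeff, map_sum]
  refine Finset.sum_congr rfl fun m _ => ?_
  rw [map_smul, Polynomial.coeff_smul, map_smul, smul_eq_mul]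
  rfl

theorem coeff_expandAt_form {R : Type*} [CommRing R] (c : ℕ → R) {d : ℕ}
    {f : MvPolynomial (Fin 3) R} (hf : f.IsHomogeneous d) (i j : ℕ) :
    PowerSeries.coeff i ((expandAt c f).coeff j) =
      ∑ m : exps d, MvPolynomial.coeff m.1 f * entA c m.1 i j := by
  rw [coeff_expandAt, Finset.sum_coe_sort (exps d) (fun m => MvPolynomial.coeff m f * entA c m i j)]
  refine Finset.sum_subset ?_ ?_
  · intro m hm
    rw [mem_exps]
    rw [MvPolynomial.mem_support_iff] at hm
    by_contra h
    exact hm (hf.coeff_eq_zero h)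
  · intro m _ hm
    rw [MvPolynomial.notMem_support_iff.1 hm, zero_mul]

theorem map_entA {R S : Type*} [CommRing R] [CommRing S] (φ : R →+* S) (c : ℕ → R)
    (m : Fin 3 →₀ ℕ) (i j : ℕ) : φ (entA c m i j) = entA (fun k => φ (c k)) m i j := by
  unfold entA
  rw [← PowerSeries.coeff_map, ← Polynomial.coeff_map, expandAt_monomial, expandAt_monomial]
  congr 2
  have h : PowerSeries.map φ (PowerSeries.mk fun k => c (k + 1)) =
      PowerSeries.mk fun k => φ (c (k + 1)) := by
    ext k
    simp
  simp [Polynomial.map_mul, Polynomial.map_pow, h]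

/-- the determinant of generic conditions, specialised -/
theorem aeval_det {ι σ : Type} [Fintype σ] [DecidableEq σ] (f : σ → ι × ℕ × ℕ)
    (e : σ → (Fin 3 →₀ ℕ)) {L : Type} [Field L] [CharZero L] (c : ι × ℕ → L) :
    MvPolynomial.aeval c (Matrix.of fun j m : σ =>
      entA (fun k => (MvPolynomial.X ((f j).1, k) : MvPolynomial (ι × ℕ) ℚ)) (e m)
        (f j).2.1 (f j).2.2).det =
      (Matrix.of fun j m : σ => entA (fun k => c ((f j).1, k)) (e m)
        (f j).2.1 (f j).2.2).det := by
  rw [AlgHom.map_det]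
  congr 1
  ext j m
  have := map_entA ((MvPolynomial.aeval c : MvPolynomial (ι × ℕ) ℚ →ₐ[ℚ] L) :
    MvPolynomial (ι × ℕ) ℚ →+* L)
    (fun k => (MvPolynomial.X ((f j).1, k) : MvPolynomial (ι × ℕ) ℚ)) (e m)
    (f j).2.1 (f j).2.2
  simp only [RingHom.coe_coe, MvPolynomial.aeval_X] at this
  rw [AlgHom.mapMatrix_apply, Matrix.map_apply, Matrix.of_apply, Matrix.of_apply]
  exact this

/-- the coordinates of the graph of a polynomial -/
noncomputable def crd {K : Type} [Field K] (x y : K) (g : Polynomial K) : ℕ → K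
  | 0 => x
  | 1 => y
  | k + 2 => g.coeff (k + 1)

theorem expandAt_eq {K : Type} [Field K] {x y : K} {g : Polynomial K} (hg : g.coeff 0 = 0)
    (F : MvPolynomial (Fin 3) K) (j l : ℕ) :
    PowerSeries.coeff j ((expandAt (crd x y g) F).coeff l) =
      ((MvPolynomial.aeval ![Polynomial.C (Polynomial.C x + Polynomial.X),
        Polynomial.C (Polynomial.C y + g) + Polynomial.X, 1] F).coeff l).coeff j := by
  have hmap : expandAt (crd x y g) F =
      Polynomial.map (Polynomial.coeToPowerSeries.ringHom (R := K))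
        (MvPolynomial.aeval ![Polynomial.C (Polynomial.C x + Polynomial.X),
          Polynomial.C (Polynomial.C y + g) + Polynomial.X, 1] F) := by
    unfold expandAt
    rw [MvPolynomial.aeval_def, MvPolynomial.aeval_def, ← Polynomial.coe_mapRingHom,
      MvPolynomial.eval₂_comp_left]
    congr 1
    · ext a n m
      have h1 : (algebraMap K (Polynomial (PowerSeries K))) a = Polynomial.C (PowerSeries.C a) := rfl
      have h2 : (algebraMap K (Polynomial (Polynomial K))) a = Polynomial.C (Polynomial.C a) := rfl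
      rw [RingHom.comp_apply, h1, h2, Polynomial.coe_mapRingHom, Polynomial.map_C]
      simp
    · have hg' : (PowerSeries.mk fun k => crd x y g (k + 1)) =
          ((Polynomial.C y + g : Polynomial K) : PowerSeries K) := by
        ext n
        cases n with
        | zero => simp [hg, crd]
        | succ n => simp [crd]
      funext k
      rw [hg']
      fin_cases k
      · simp [crd]
      · simp
      · simp
  rw [hmap, Polynomial.coeff_map]
  simp

/-- emptiness for germs outside one hypersurface, several germs -/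
theorem generic {ι : Type} [Finite ι] {t c : ι → ℝ} (ht : ∀ i, 1 ≤ t i) {d : ℕ}
    (h : EmpW t c (TT d)) :
    ∃ D : MvPolynomial (ι × ℕ) ℚ, D ≠ 0 ∧ ∀ a : ι × ℕ → ℂ,
      MvPolynomial.aeval a D ≠ 0 → ∀ F : MvPolynomial (Fin 3) ℂ, F.IsHomogeneous d →
        (∀ i, ∀ j l : ℕ, (j : ℝ) + t i * l < c i →
          PowerSeries.coeff j ((expandAt (fun k => a (i, k)) F).coeff l) = 0) → F = 0 := by
  classical
  obtain ⟨K, _, _, x, y, g, hg0, hF⟩ := EmpW.graph ht h
  obtain ⟨c0, hc0⟩ : ∃ c0 : ι × ℕ → K, ∀ p, c0 p = crd (x p.1) (y p.1) (g p.1) p.2 :=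
    ⟨_, fun _ => rfl⟩
  have hv0 : ∀ v : exps d → K, (∀ i, ∀ j l : ℕ, (j : ℝ) + t i * l < c i →
      ∑ m : exps d, v m * entA (fun k => c0 (i, k)) m.1 j l = 0) → v = 0 := by
    intro v hv
    obtain ⟨F, hFdef⟩ : ∃ F : MvPolynomial (Fin 3) K,
      F = ∑ m : exps d, MvPolynomial.monomial m.1 (v m) := ⟨_, rfl⟩
    have hFd : F.IsHomogeneous d := by
      rw [hFdef]
      apply MvPolynomial.IsHomogeneous.sum
      intro m _
      exact MvPolynomial.isHomogeneous_monomial _ (mem_exps.1 m.2)
    have hFc : ∀ m : exps d, MvPolynomial.coeff m.1 F = v m := by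
      intro m
      rw [hFdef, MvPolynomial.coeff_sum, Finset.sum_eq_single m]
      · rw [MvPolynomial.coeff_monomial, if_pos rfl]
      · intro m' _ hne
        rw [MvPolynomial.coeff_monomial, if_neg]
        exact fun h => hne (Subtype.ext h)
      · intro h; exact absurd (Finset.mem_univ m) h
    have h0 : F = 0 := by
      apply hF _ hFd
      intro i j l hjl
      rw [← expandAt_eq (hg0 i)]
      have e : crd (x i) (y i) (g i) = fun k => c0 (i, k) := by
        funext k
        rw [hc0]
      rw [e, coeff_expandAt_form _ hFd, ← hv i j l hjl]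
      exact Finset.sum_congr rfl fun m _ => by rw [hFc]
    funext m
    rw [← hFc m, h0]
    simp
  obtain ⟨a, ha⟩ := Pool.Agent.TH15.Nag.exists_rows
    (R := {p : ι × ℕ × ℕ // (p.2.1 : ℝ) + t p.1 * p.2.2 < c p.1}) (σ := exps d)
    (fun p m => entA (fun k => c0 (p.1.1, k)) m.1 p.1.2.1 p.1.2.2) (by
    intro v hv
    apply hv0 v
    intro i j l hij
    rw [← hv ⟨(i, j, l), hij⟩]
    exact Finset.sum_congr rfl fun m _ => mul_comm _ _)
  obtain ⟨D, hDdef⟩ : ∃ D : MvPolynomial (ι × ℕ) ℚ, D = (Matrix.of fun j m : exps d =>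
    entA (fun k => (MvPolynomial.X ((a j).1.1, k) : MvPolynomial (ι × ℕ) ℚ)) m.1
      (a j).1.2.1 (a j).1.2.2).det := ⟨_, rfl⟩
  have hD : ∀ {L : Type} [Field L] [CharZero L] (c : ι × ℕ → L), MvPolynomial.aeval c D =
      (Matrix.of fun j m : exps d => entA (fun k => c ((a j).1.1, k)) m.1
        (a j).1.2.1 (a j).1.2.2).det := by
    intro L _ _ c
    rw [hDdef]
    exact aeval_det (fun j => (a j).1) (fun m => m.1) c
  refine ⟨D, ?_, ?_⟩
  · intro h0
    apply ha
    rw [← hD c0, h0, map_zero]
  · intro b hb F hFd hW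
    rw [hD b] at hb
    have hv : (fun m : exps d => MvPolynomial.coeff m.1 F) = 0 := by
      apply Matrix.eq_zero_of_mulVec_eq_zero hb
      funext j
      rw [Pi.zero_apply, ← hW (a j).1.1 (a j).1.2.1 (a j).1.2.2 (a j).2,
        coeff_expandAt_form _ hFd]
      rw [Matrix.mulVec, dotProduct]
      exact Finset.sum_congr rfl fun m _ => mul_comm _ _
    ext m
    rw [MvPolynomial.coeff_zero]
    by_cases hm : m ∈ exps d
    · exact congrFun hv ⟨m, hm⟩
    · apply hFd.coeff_eq_zero
      rw [mem_exps] at hm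
      exact hm

end Pool.Agent.TH181.QV
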