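import Pool.Agent.TH181.QV.Gen

/-! Several very general quasimonomial valuations, all real weights at once. -/

namespace Pool.Agent.TH181.QV

open Finset Filter Topology
open Pool.Agent.TH183.QN (EmpW TT)
open Pool.Agent.TH308.QM (EmpW_plane)

/-- one polynomial for each rational datum -/
theorem datum {n : ℕ} (d : ℕ) (t w : Fin n → ℚ) :
    ∃ D : MvPolynomial (Fin n × ℕ) ℂ, D ≠ 0 ∧
      ((∀ i, (1 : ℝ) ≤ t i) → (9 : ℝ) ≤ ∑ i, (t i : ℝ) →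
        (d : ℝ) * √(∑ i, (t i : ℝ)) < ∑ i, (w i : ℝ) →
        ∀ a : Fin n × ℕ → ℂ, MvPolynomial.eval a D ≠ 0 → ∀ F : MvPolynomial (Fin 3) ℂ,
          F.IsHomogeneous d → (∀ i, ∀ j l : ℕ, (j : ℝ) + (t i : ℝ) * l < w i →
            PowerSeries.coeff j ((expandAt (fun k => a (i, k)) F).coeff l) = 0) → F = 0) := by
  by_cases h : (∀ i, (1 : ℝ) ≤ t i) ∧ (9 : ℝ) ≤ ∑ i, (t i : ℝ) ∧
      (d : ℝ) * √(∑ i, (t i : ℝ)) < ∑ i, (w i : ℝ)
  · obtain ⟨h1, h2, h3⟩ := h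
    obtain ⟨D, hD, hD'⟩ := generic (t := fun i => (t i : ℝ)) (c := fun i => (w i : ℝ)) h1
      (EmpW_plane (fun i => zero_le_one.trans (h1 i)) h2 h3)
    refine ⟨MvPolynomial.map (algebraMap ℚ ℂ) D, ?_, ?_⟩
    · intro h0
      exact hD ((MvPolynomial.map_injective _ (algebraMap ℚ ℂ).injective) (by rw [h0, map_zero]))
    · intro _ _ _ a ha F hF hv
      rw [MvPolynomial.eval_map, ← MvPolynomial.aeval_def] at ha
      exact hD' a ha F hF hv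
  · exact ⟨1, one_ne_zero, fun h1 h2 h3 => absurd ⟨h1, h2, h3⟩ h⟩

/-- **Nagata's inequality for several very general quasimonomial valuations**, for all weights
at once -/
theorem simul (n : ℕ) :
    ∃ S : ℕ → MvPolynomial (Fin n × ℕ) ℂ, (∀ N, S N ≠ 0) ∧
      ∀ a : Fin n × ℕ → ℂ, (∀ N, MvPolynomial.eval a (S N) ≠ 0) →
        ∀ t w : Fin n → ℝ, (∀ i, 1 ≤ t i) → 9 ≤ ∑ i, t i →
          ∀ (d : ℕ) (F : MvPolynomial (Fin 3) ℂ), F.IsHomogeneous d → F ≠ 0 →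
            (∀ i, ∀ j l : ℕ, (j : ℝ) + t i * l < w i →
              PowerSeries.coeff j ((expandAt (fun k => a (i, k)) F).coeff l) = 0) →
            ∑ i, w i ≤ d * √(∑ i, t i) := by
  classical
  choose D hD0 hD using fun q : ℕ × (Fin n → ℚ) × (Fin n → ℚ) => datum q.1 q.2.1 q.2.2
  obtain ⟨e, he⟩ := exists_surjective_nat (ℕ × (Fin n → ℚ) × (Fin n → ℚ))
  refine ⟨fun N => D (e N), fun N => hD0 _, ?_⟩
  intro a ha t w ht hT d F hF hF0 hv
  by_contra hcon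
  rw [not_le] at hcon
  have hc : Continuous fun δ : ℝ => (d : ℝ) * √(∑ i, t i + n * δ) + n * δ := by fun_prop
  have h0 : (d : ℝ) * √(∑ i, t i + n * (0 : ℝ)) + n * (0 : ℝ) < ∑ i, w i := by
    simpa using hcon
  have hev : ∀ᶠ δ : ℝ in 𝓝[>] 0, (d : ℝ) * √(∑ i, t i + n * δ) + n * δ < ∑ i, w i :=
    ((hc.tendsto 0).eventually (gt_mem_nhds h0)).filter_mono nhdsWithin_le_nhds
  obtain ⟨δ, hδ, hδ0⟩ := (hev.and self_mem_nhdsWithin).exists
  have hδ0' : (0 : ℝ) < δ := hδ0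
  have hex1 : ∀ i, ∃ q : ℚ, t i < q ∧ (q : ℝ) < t i + δ := fun i =>
    exists_rat_btwn (by linarith)
  have hex2 : ∀ i, ∃ q : ℚ, w i - δ < q ∧ (q : ℝ) < w i := fun i =>
    exists_rat_btwn (by linarith)
  choose t' ht1 ht2 using hex1
  choose w' hw1 hw2 using hex2
  obtain ⟨N, hN⟩ := he (d, t', w')
  have hTle : ∑ i, (t' i : ℝ) ≤ ∑ i, t i + n * δ := by
    calc ∑ i, (t' i : ℝ) ≤ ∑ i, (t i + δ) := sum_le_sum fun i _ => (ht2 i).le
      _ = ∑ i, t i + n * δ := by rw [sum_add_distrib]; simp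
  have hWle : ∑ i, w i - n * δ ≤ ∑ i, (w' i : ℝ) := by
    calc ∑ i, w i - n * δ = ∑ i, (w i - δ) := by rw [sum_sub_distrib]; simp
      _ ≤ ∑ i, (w' i : ℝ) := sum_le_sum fun i _ => (hw1 i).le
  have hTge : ∑ i, t i ≤ ∑ i, (t' i : ℝ) := sum_le_sum fun i _ => (ht1 i).le
  have h3 : (d : ℝ) * √(∑ i, (t' i : ℝ)) < ∑ i, (w' i : ℝ) := by
    have : (d : ℝ) * √(∑ i, (t' i : ℝ)) ≤ d * √(∑ i, t i + n * δ) :=
      mul_le_mul_of_nonneg_left (Real.sqrt_le_sqrt hTle) (Nat.cast_nonneg d)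
    linarith
  refine hF0 (hD (d, t', w') (fun i => (ht i).trans (ht1 i).le) (hT.trans hTge) h3 a ?_ F hF ?_)
  · rw [← hN]; exact ha N
  · intro i j l hjl
    refine hv i j l ?_
    have h5 : t i * (l : ℝ) ≤ t' i * l := mul_le_mul_of_nonneg_right (ht1 i).le (Nat.cast_nonneg l)
    have h6 := hw2 i
    have h7 : (j : ℝ) + (t' i : ℝ) * l < w' i := hjl
    linarith

end Pool.Agent.TH181.QV
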